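import Mathlib
import Pool.Agent.H88.QP.Main

set_option autoImplicit false

namespace Pool.Agent.Results.MP_3aa75e_co.HeavyPoint

/-- Let `L/K` be an extension of finite fields of degree `n ≥ 4` and `q = |K|`. The sizes `s` of the
sets `Im(f(x)/x) = {f(x)/x : x ≠ 0}` of the `q`-polynomials `f(x) = ∑_{i<n} a_i x^(q^i)` over `L` for
which some equation `f(x) = m x` has at least `q^(n-2)` solutions are exactly `1`, `q^(n-1) + 1`,
`q^(n-1) + q^(n-2) + 1`, `q^(n-1) + q^(n-2) - q^(n-3) + 1` and, for even `n` only, `q^(n-2) + 1`. -/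
theorem result (K L : Type) [Field K] [Field L] [Algebra K L] [Finite L]
    (hn : 4 ≤ Module.finrank K L) (s : ℕ) :
    (∃ a : Fin (Module.finrank K L) → L,
      (∃ m : L, Nat.card K ^ (Module.finrank K L - 2)
        ≤ {x : L | (∑ i, a i * x ^ (Nat.card K ^ (i : ℕ))) = m * x}.ncard) ∧
      {c : L | ∃ x : L, x ≠ 0 ∧ (∑ i, a i * x ^ (Nat.card K ^ (i : ℕ))) / x = c}.ncard = s) ↔
    s = 1 ∨
    s = Nat.card K ^ (Module.finrank K L - 1) + 1 ∨
    s = Nat.card K ^ (Module.finrank K L - 1) + Nat.card K ^ (Module.finrank K L - 2) + 1 ∨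
    s + Nat.card K ^ (Module.finrank K L - 3)
      = Nat.card K ^ (Module.finrank K L - 1) + Nat.card K ^ (Module.finrank K L - 2) + 1 ∨
    (Even (Module.finrank K L) ∧ s = Nat.card K ^ (Module.finrank K L - 2) + 1) := by
  have : Finite K := Finite.of_injective _ (algebraMap K L).injective
  exact Pool.Agent.H88.QP.main hn s

end Pool.Agent.Results.MP_3aa75e_co.HeavyPoint
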