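import Mathlib
import Pool.Agent.H88.QP.Generic

set_option autoImplicit false

namespace Pool.Agent.Results.MP_3aa75e_co.MatrixSizes

/-- Let `L/K` be an extension of finite fields of degree `n`, `q = |K|`, `0 ≤ k < n`, `k^2 ≤ n`. Then
some `q`-polynomial `f(x) = ∑_{i<n} a_i x^(q^i)` over `L` with at least `q^(n-k)` zeros in `L` has
exactly `q^n + 1 - q^(n-k^2) (q^k - 1) (q^k - q) ... (q^k - q^(k-1))` values of `f(x)/x`, `x ≠ 0`. -/
theorem result (K L : Type) [Field K] [Field L] [Algebra K L] [Finite L]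
    (k : ℕ) (hk : k < Module.finrank K L) (hk2 : k ^ 2 ≤ Module.finrank K L) :
    ∃ a : Fin (Module.finrank K L) → L,
      Nat.card K ^ (Module.finrank K L - k)
        ≤ {x : L | (∑ i, a i * x ^ (Nat.card K ^ (i : ℕ))) = 0}.ncard ∧
      {c : L | ∃ x : L, x ≠ 0 ∧ (∑ i, a i * x ^ (Nat.card K ^ (i : ℕ))) / x = c}.ncard
        + Nat.card K ^ (Module.finrank K L - k ^ 2)
          * ∏ i ∈ Finset.range k, (Nat.card K ^ k - Nat.card K ^ i)
        = Nat.card K ^ Module.finrank K L + 1 := by
  have : Finite K := Finite.of_injective _ (algebraMap K L).injective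
  exact Pool.Agent.H88.QP.exists_generic hk hk2

end Pool.Agent.Results.MP_3aa75e_co.MatrixSizes
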