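import Mathlib
import Pool.Agent.H88.QP.Moebius

set_option autoImplicit false

namespace Pool.Agent.Results.MP_3aa75e_co.PowerCongruence

/-- Let `L/K` be an extension of finite fields of degree `n`, `q = |K|`, `0 ≤ k < n`, and let `e` be
a natural number with `e ≤ d (d - 1) / 2 + max (n - k d, 0)` for all `d = 1, ..., k`. If
`f(x) = ∑_{i<n} a_i x^(q^i)` is a `q`-polynomial over `L` and some equation `f(x) = m x` has at least
`q^(n-k)` solutions in `L`, then the number of values of `f(x)/x` (`x ≠ 0`) is congruent to `1`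
modulo `q^e`. -/
theorem result (K L : Type) [Field K] [Field L] [Algebra K L] [Finite L]
    (k : ℕ) (hk : k < Module.finrank K L) (e : ℕ)
    (he : ∀ d, 1 ≤ d → d ≤ k → e ≤ d * (d - 1) / 2 + (Module.finrank K L - k * d))
    (a : Fin (Module.finrank K L) → L) (m : L)
    (hm : Nat.card K ^ (Module.finrank K L - k)
        ≤ {x : L | (∑ i, a i * x ^ (Nat.card K ^ (i : ℕ))) = m * x}.ncard) :
    {c : L | ∃ x : L, x ≠ 0 ∧ (∑ i, a i * x ^ (Nat.card K ^ (i : ℕ))) / x = c}.ncard
      ≡ 1 [MOD Nat.card K ^ e] := by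
  have : Finite K := Finite.of_injective _ (algebraMap K L).injective
  exact Pool.Agent.H88.QP.congr_sharp hk he a m hm

end Pool.Agent.Results.MP_3aa75e_co.PowerCongruence
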